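import Mathlib
import Pool.Agent.MP_e4c747_an.Exp
import Pool.Agent.MP_d8b1b3_co.H68.Primes

/-!
Almost every integer lies just above a product of a shifted prime and a power of a free
multiplier.  Ingredients: the derivative test of arbitrary order for exponential sums with a
logarithmic phase, and a variance bound by the finite Parseval identity.
-/

set_option autoImplicit false

open Finset Complex Filter
open scoped Real ComplexConjugate

namespace Pool.Agent.MP_d8b1b3_co.H42d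

open Pool.Agent.MP_e4c747_an

/-- the additive character of the line -/
noncomputable def ee (x : ℝ) : ℂ := exp (2 * (π * x : ℝ) * I)

lemma norm_ee (x : ℝ) : ‖ee x‖ = 1 := by
  have : (2 * (π * x : ℝ) * I : ℂ) = (2 * (π * x) : ℝ) * I := by push_cast; ring
  rw [ee, this, norm_exp_ofReal_mul_I]

lemma ee_add (x y : ℝ) : ee (x + y) = ee x * ee y := by
  rw [ee, ee, ee, ← Complex.exp_add]; congr 1; push_cast; ring

lemma ee_neg (x : ℝ) : ee (-x) = conj (ee x) := by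
  rw [ee, ee, ← exp_conj]; congr 1
  simp only [map_mul, conj_ofReal, conj_I, map_ofNat]; push_cast; ring

lemma ee_sub (x y : ℝ) : ee x * conj (ee y) = ee (x - y) := by
  rw [sub_eq_add_neg, ee_add, ee_neg]

lemma ee_lip (x y : ℝ) : ‖ee x - ee y‖ ≤ 7 * |x - y| := by
  have h1 : ee x - ee y = (ee (x - y) - 1) * ee y := by
    rw [sub_mul, ← ee_add, one_mul, sub_add_cancel]
  have h2 : (2 * (π * (x - y) : ℝ) * I : ℂ) = I * (2 * (π * (x - y)) : ℝ) := by push_cast; ring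
  rw [h1, norm_mul, norm_ee, mul_one, ee, h2]
  refine (Real.norm_exp_I_mul_ofReal_sub_one_le).trans ?_
  rw [Real.norm_eq_abs, abs_mul, abs_mul, abs_of_pos Real.pi_pos, abs_two]
  nlinarith [Real.pi_lt_d2, abs_nonneg (x - y)]

/-- a tower of derivatives on an interval -/
def Tower (F : ℕ → ℝ → ℝ) (L : ℝ) : Prop :=
  ∀ i x, 0 ≤ x → x ≤ L → HasDerivAt (F i) (F (i + 1) x) x

lemma Tower.mvt {F : ℕ → ℝ → ℝ} {L : ℝ} (h : Tower F L) (i : ℕ) {x d : ℝ} (hx : 0 ≤ x)
    (hd : 0 < d) (hL : x + d ≤ L) :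
    ∃ ξ, x ≤ ξ ∧ ξ ≤ x + d ∧ F i (x + d) - F i x = d * F (i + 1) ξ := by
  obtain ⟨ξ, h1, h2⟩ := exists_hasDerivAt_eq_slope (F i) (F (i + 1)) (lt_add_of_pos_right x hd)
    (fun t ht => (h i t (hx.trans ht.1) (ht.2.trans hL)).continuousAt.continuousWithinAt)
    (fun t ht => h i t (hx.trans ht.1.le) (ht.2.le.trans hL))
  refine ⟨ξ, h1.1.le, h1.2.le, ?_⟩
  rw [h2, add_sub_cancel_left]
  field_simp

lemma Tower.diff {F : ℕ → ℝ → ℝ} {L : ℝ} (h : Tower F L) {d : ℝ} (hd : 0 ≤ d) :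
    Tower (fun i x => F i (x + d) - F i x) (L - d) := fun i x h0 h1 =>
  ((h i (x + d) (by linarith) (by linarith)).comp_add_const x d).sub (h i x h0 (by linarith))

lemma Tower.kl {F : ℕ → ℝ → ℝ} {L l : ℝ} (h : Tower F L) (hl : 0 < l) {n : ℕ}
    (hn : (n : ℝ) + 1 ≤ L) (hb : ∀ x, 0 ≤ x → x ≤ L → l ≤ F 1 x ∧ F 1 x ≤ 1 / 2 ∧ 0 ≤ F 2 x) :
    ‖∑ j ∈ range n, ee (F 0 j)‖ ≤ 2 / l := by
  have key : ∀ j : ℕ, j ≤ n → l ≤ F 0 (j + 1) - F 0 j ∧ F 0 (j + 1) - F 0 j ≤ 1 / 2 := by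
    intro j hj
    have hj' : (j : ℝ) ≤ n := by exact_mod_cast hj
    obtain ⟨ξ, h1, h2, h3⟩ := h.mvt 0 (Nat.cast_nonneg j) one_pos (by linarith)
    have := hb ξ ((Nat.cast_nonneg j).trans h1) (by linarith)
    rw [h3, one_mul]
    exact ⟨this.1, this.2.1⟩
  refine kusmin_landau (fun j => ee (F 0 j)) (fun j => F 0 (j + 1) - F 0 j) n hl
    (fun j => norm_ee _) (fun j _ => ?_) (key 0 (Nat.zero_le n)).1 (fun j hj => ?_)
    (fun j hj => (key j hj).2)
  · change ee _ = ee _ * ee _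
    rw [← ee_add]; push_cast; congr 1; ring
  · have hj' : (j : ℝ) + 1 ≤ n := by exact_mod_cast hj
    have j0 : (0 : ℝ) ≤ j := Nat.cast_nonneg j
    obtain ⟨ξ, h1, h2, h3⟩ := (h.diff zero_le_one).mvt 0 j0 one_pos (by linarith)
    obtain ⟨ξ', h4, h5, h6⟩ := h.mvt 1 (x := ξ) (by linarith) one_pos (by linarith)
    have := (hb ξ' (by linarith) (by linarith)).2.2
    simp only [zero_add] at h3
    push_cast
    linarith

/-- the derivative test of order `k + 1` -/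
theorem vdc (H : ℕ) (k : ℕ) : ∀ (θ : ℝ), 0 < θ → θ ≤ 1 → 1 ≤ θ ^ 2 ^ k * H →
    ∀ (F : ℕ → ℝ → ℝ) (l m L : ℝ), Tower F L → ((k : ℝ) + 2) * H ≤ L →
    (∀ x, 0 ≤ x → x ≤ L → l ≤ F (k + 1) x ∧ F (k + 1) x ≤ m ∧ 0 ≤ F (k + 2) x) →
    m * (H : ℝ) ^ k ≤ 1 / 2 → 1 ≤ l * (θ ^ 2 ^ k * H) ^ (k + 1) →
    ∀ n ≤ H, ‖∑ j ∈ range n, ee (F 0 j)‖ ≤ 5 * H * θ := by
  induction k with
  | zero =>
    intro θ h0 h1 hH F l m L hT hL hb hm hl n hn
    simp only [pow_zero, pow_one, mul_one, zero_add, Nat.cast_zero] at hH hm hl hL hb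
    have hH1 : (1 : ℝ) ≤ H := by nlinarith [Nat.cast_nonneg (α := ℝ) H]
    have hn' : (n : ℝ) ≤ H := by exact_mod_cast hn
    have l0 : 0 < l := by
      by_contra hh
      nlinarith
    refine (hT.kl l0 (by linarith) fun x a b =>
      ⟨(hb x a b).1, (hb x a b).2.1.trans hm, (hb x a b).2.2⟩).trans ?_
    rw [div_le_iff₀ l0]
    nlinarith
  | succ k ih =>
    intro θ h0 h1 hH F l m L hT hL hb hm hl n hn
    have e : θ ^ 2 ^ (k + 1) = (θ ^ 2) ^ 2 ^ k := by rw [← pow_mul, pow_succ']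
    set η := θ ^ 2 ^ (k + 1) with hη
    have η0 : 0 < η := by positivity
    have t1 : θ ^ 2 ≤ 1 := pow_le_one₀ h0.le h1
    have η1 : η ≤ θ ^ 2 := by
      rw [e]; exact pow_le_of_le_one (by positivity) t1 (by positivity)
    have H0 : (0 : ℝ) ≤ H := Nat.cast_nonneg H
    have l0 : 0 < l := by
      by_contra hh
      have : l * (η * H) ^ (k + 1 + 1) ≤ 0 :=
        mul_nonpos_of_nonpos_of_nonneg (not_lt.1 hh) (by positivity)
      linarith
    push_cast at hL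
    have k0 : (0 : ℝ) ≤ k := Nat.cast_nonneg k
    have m0 : 0 ≤ m := by
      have := hb 0 le_rfl (by nlinarith)
      linarith [this.1, this.2.1]
    have h2 := weyl_diff (fun j => ee (F 0 j)) (fun j => norm_ee _) hn
    have h3 : ∀ h ∈ range H, ‖∑ i ∈ range (n - (h + 1)),
        ee (F 0 (i + (h + 1) : ℕ)) * conj (ee (F 0 i))‖ ≤
        (if ((h : ℝ) + 1 < η * H) then (H : ℝ) else 0) + 5 * H * θ ^ 2 := by
      intro h hh
      have hh' : (h : ℝ) + 1 ≤ H := by exact_mod_cast mem_range.1 hh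
      have d0 : (0 : ℝ) < h + 1 := by positivity
      split_ifs with hc
      · refine (norm_sum_le _ _).trans ?_
        simp only [norm_mul, norm_conj, norm_ee, mul_one, sum_const, card_range, nsmul_eq_mul]
        have : ((n - (h + 1) : ℕ) : ℝ) ≤ H := by exact_mod_cast (Nat.sub_le _ _).trans hn
        have : 0 ≤ 5 * H * θ ^ 2 := by positivity
        linarith
      · rw [zero_add]
        have := ih (θ ^ 2) (by positivity) t1 (e ▸ hH) _ ((h + 1) * l) ((h + 1) * m) _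
          (hT.diff d0.le) (by nlinarith) (fun x a b => ?_) ?_ ?_ (n - (h + 1))
          ((Nat.sub_le _ _).trans hn)
        · refine le_of_eq_of_le ?_ this
          congr 1
          refine sum_congr rfl fun i _ => ?_
          rw [ee_sub]; push_cast; rfl
        · obtain ⟨ξ, a1, a2, a3⟩ := hT.mvt (k + 1) a d0 (by linarith)
          obtain ⟨ξ', b1, b2, b3⟩ := hT.mvt (k + 2) a d0 (by linarith)
          have c1 := hb ξ (by linarith) (by linarith)
          have c2 := (hb ξ' (by linarith) (by linarith)).2.2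
          simp only [a3, b3]
          exact ⟨mul_le_mul_of_nonneg_left c1.1 d0.le, mul_le_mul_of_nonneg_left c1.2.1 d0.le,
            mul_nonneg d0.le c2⟩
        · refine le_trans ?_ hm
          rw [pow_succ]
          have : 0 ≤ m * (H : ℝ) ^ k := by positivity
          nlinarith
        · rw [← e]
          refine hl.trans ?_
          rw [pow_succ]
          have : 0 ≤ l * (η * H) ^ (k + 1) := by positivity
          nlinarith [not_lt.1 hc]
    have h4 : ∑ h ∈ range H, (if ((h : ℝ) + 1 < η * H) then (H : ℝ) else 0) ≤ η * H * H := by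
      rw [← sum_filter, sum_const, nsmul_eq_mul]
      refine mul_le_mul_of_nonneg_right ?_ H0
      have : (range H).filter (fun h : ℕ => (h : ℝ) + 1 < η * H) ⊆ range ⌊η * H⌋₊ := fun h hh => by
        rw [mem_range, Nat.lt_iff_add_one_le, Nat.le_floor_iff (by positivity)]
        push_cast
        exact (mem_filter.1 hh).2.le
      calc _ ≤ ((#(range ⌊η * H⌋₊) : ℕ) : ℝ) := by exact_mod_cast card_le_card this
        _ ≤ _ := by rw [card_range]; exact Nat.floor_le (by positivity)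
    have h5 := sum_le_sum h3
    rw [sum_add_distrib, sum_const, card_range, nsmul_eq_mul] at h5
    refine (pow_le_pow_iff_left₀ (norm_nonneg _) (by positivity) two_ne_zero).1 ?_
    have h6 : (H : ℝ) ≤ η * H * H := by nlinarith
    have h7 : η * H * H ≤ θ ^ 2 * H * H := by gcongr
    have h8 : 0 ≤ θ ^ 2 * H * H := by positivity
    nlinarith

/-- the derivatives of the logarithmic phase -/
noncomputable def lg (c N : ℝ) : ℕ → ℝ → ℝ
  | 0 => fun x => -c * Real.log (N - 2 * x)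
  | i + 1 => fun x => c * 2 ^ (i + 1) * i.factorial / (N - 2 * x) ^ (i + 1)

lemma lg_tower (c : ℝ) {N L : ℝ} (h : 2 * L < N) : Tower (lg c N) L := by
  intro i x _ h1
  have h0 : N - 2 * x ≠ 0 := by linarith
  have hd : HasDerivAt (fun x : ℝ => N - 2 * x) (-2) x := by
    simpa using ((hasDerivAt_id x).const_mul 2).const_sub N
  cases i with
  | zero =>
    have := (hd.log h0).const_mul (-c)
    refine this.congr_deriv ?_
    simp only [lg]
    field_simp
    simp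
    ring
  | succ i =>
    have := (((hd.pow (i + 1)).inv (pow_ne_zero _ h0)).const_mul
      (c * 2 ^ (i + 1) * i.factorial))
    refine this.congr_deriv ?_
    simp only [lg, Nat.factorial_succ, Nat.add_sub_cancel, Pi.pow_apply]
    push_cast
    field_simp
    ring

lemma logblock {y S E : ℕ} {θ c N : ℝ} (hy : 2 ^ (2 * S + 4) ≤ y) (h0 : 0 < θ) (h1 : θ ≤ 1)
    (hE : (2 * S + 1) * 2 ^ (2 * S) ≤ E) (hθ : 2 ^ 11 ≤ θ ^ E * y) (n1 : (y : ℝ) ^ 4 ≤ N)
    (n2 : N ≤ 2 ^ 12 * y ^ 4) (hc : (y : ℝ) ^ 2 ≤ c) (hc' : c ≤ (y : ℝ) ^ S) {n : ℕ}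
    (hn : n ≤ y ^ 3) : ‖∑ j ∈ range n, ee (-c * Real.log (N - 2 * j))‖ ≤ 5 * (y : ℝ) ^ 3 * θ := by
  have sS : S < 2 ^ S := Nat.lt_two_pow_self
  have y1 : 16 * (S + 1) ^ 2 ≤ y := by
    refine le_trans ?_ hy
    rw [pow_add, mul_comm 2 S, pow_mul]
    nlinarith
  have y0 : (0 : ℝ) < y := by exact_mod_cast (by nlinarith : 0 < y)
  have y2 : (16 : ℝ) * (S + 1) ^ 2 ≤ y := by exact_mod_cast y1
  have S0 : (0 : ℝ) ≤ S := Nat.cast_nonneg S
  have y3 : (16 : ℝ) ≤ y := by nlinarith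
  have N0 : (0 : ℝ) < N := lt_of_lt_of_le (by positivity) n1
  have c0 : 0 < c := lt_of_lt_of_le (by positivity) hc
  set r : ℝ := 2 * y ^ 3 / N with hr
  have r0 : 0 < r := by positivity
  have r1 : r ≤ 2 / y := by
    rw [hr, div_le_div_iff₀ N0 y0]; nlinarith
  have r2 : 1 / (2 ^ 11 * y) ≤ r := by
    rw [hr, div_le_div_iff₀ (by positivity) N0]; nlinarith
  have top : c * (2 * S).factorial * r ^ (2 * S + 1) ≤ (y : ℝ) ^ 2 := by
    have f1 : ((2 * S).factorial : ℝ) ≤ (2 * S) ^ (2 * S) := by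
      exact_mod_cast Nat.factorial_le_pow (2 * S)
    calc _ ≤ (y : ℝ) ^ S * (2 * S) ^ (2 * S) * (2 / y) ^ (2 * S + 1) := by gcongr
      _ = (16 * S ^ 2 / y) ^ S * (2 / y) := by
          rw [pow_succ, pow_mul, pow_mul, ← mul_pow, ← mul_assoc, ← mul_pow]
          congr 2
          field_simp
          ring
      _ ≤ 1 * 1 := by
          gcongr
          · refine pow_le_one₀ (by positivity) ?_
            rw [div_le_one y0]; nlinarith
          · rw [div_le_one y0]; linarith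
      _ ≤ _ := by nlinarith
  have ex : ∃ k : ℕ, c * k.factorial * r ^ (k + 1) ≤ (y : ℝ) ^ 2 := ⟨_, top⟩
  obtain ⟨k, hk1, hk2, hk3⟩ : ∃ k : ℕ, c * k.factorial * r ^ (k + 1) ≤ (y : ℝ) ^ 2 ∧ k ≤ 2 * S ∧
      y / 2 ^ 11 ≤ c * k.factorial * r ^ (k + 1) := by
    refine ⟨Nat.find ex, Nat.find_spec ex, Nat.find_min' ex top, ?_⟩
    have e : (y : ℝ) / 2 ^ 11 = y ^ 2 * (1 / (2 ^ 11 * y)) := by field_simp
    rcases h : Nat.find ex with _ | k
    · rw [e]
      simp only [Nat.factorial_zero, Nat.cast_one, mul_one, zero_add, pow_one]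
      gcongr
    · have := not_le.1 (Nat.find_min ex (m := k) (by omega))
      have k1 : (1 : ℝ) ≤ (k + 1 : ℕ) := by exact_mod_cast Nat.succ_pos k
      calc _ = (y : ℝ) ^ 2 * (1 / (2 ^ 11 * y)) * 1 := by rw [e, mul_one]
        _ ≤ (c * k.factorial * r ^ (k + 1)) * r * (k + 1 : ℕ) := by gcongr
        _ = _ := by rw [Nat.factorial_succ]; push_cast; ring
  have k2 : (k : ℝ) ≤ 2 * S := by exact_mod_cast hk2
  have k0 : (0 : ℝ) ≤ k := Nat.cast_nonneg k
  have hL : 4 * ((k + 2) * (y : ℝ) ^ 3) ≤ N := by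
    have : 4 * ((k : ℝ) + 2) ≤ y := by nlinarith
    have : 0 < (y : ℝ) ^ 3 := by positivity
    nlinarith
  have hL0 : 0 < ((k + 2) * (y : ℝ) ^ 3) := by positivity
  have tE : θ ^ E ≤ θ ^ (2 ^ k * (k + 1)) := by
    refine pow_le_pow_of_le_one h0.le h1 (le_trans ?_ hE)
    rw [mul_comm]
    exact Nat.mul_le_mul (by omega) (Nat.pow_le_pow_right two_pos hk2)
  have tE' : θ ^ E ≤ θ ^ 2 ^ k := tE.trans (pow_le_pow_of_le_one h0.le h1 (by
    nlinarith [Nat.one_le_two_pow (n := k)]))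
  have := vdc (y ^ 3) k θ h0 h1 ?_ (lg c N) (c * 2 ^ (k + 1) * k.factorial / N ^ (k + 1))
    (c * 2 ^ (k + 1) * k.factorial / (N / 2) ^ (k + 1)) ((k + 2) * (y : ℝ) ^ 3)
    (lg_tower c (by linarith)) (by push_cast; rfl) (fun x a b => ?_) ?_ ?_ n hn
  · simpa only [lg, Nat.cast_pow] using this
  · push_cast
    have : (y : ℝ) ≤ y ^ 3 := le_self_pow₀ (by linarith) (by norm_num)
    have : θ ^ E * y ≤ θ ^ 2 ^ k * y ^ 3 := by gcongr
    linarith
  · have : 0 < N - 2 * x := by linarith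
    simp only [lg]
    refine ⟨?_, ?_, by positivity⟩
    · gcongr; linarith
    · gcongr; linarith
  · have e : c * 2 ^ (k + 1) * k.factorial / (N / 2) ^ (k + 1) * ((y ^ 3 : ℕ) : ℝ) ^ k =
        2 ^ (k + 1) * (c * k.factorial * r ^ (k + 1)) / y ^ 3 := by
      rw [hr]
      push_cast
      simp only [div_pow, mul_pow, pow_succ ((y : ℝ) ^ 3) k]
      field_simp
    have p1 : (2 : ℝ) ^ (k + 1) * 2 ≤ y := by
      have : 2 ^ (k + 2) ≤ y := (Nat.pow_le_pow_right two_pos (by omega)).trans hy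
      exact_mod_cast this
    rw [e, div_le_iff₀ (by positivity)]
    calc _ ≤ (2 : ℝ) ^ (k + 1) * y ^ 2 := by gcongr
      _ ≤ _ := by nlinarith
  · have e : c * 2 ^ (k + 1) * k.factorial / N ^ (k + 1) *
        (θ ^ 2 ^ k * ((y ^ 3 : ℕ) : ℝ)) ^ (k + 1) =
        (c * k.factorial * r ^ (k + 1)) * θ ^ (2 ^ k * (k + 1)) := by
      rw [hr, pow_mul]
      push_cast
      simp only [div_pow, mul_pow]
      field_simp
    rw [e]
    calc (1 : ℝ) = 2 ^ 11 / 2 ^ 11 := by norm_num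
      _ ≤ θ ^ E * y / 2 ^ 11 := by gcongr
      _ = y / 2 ^ 11 * θ ^ E := by ring
      _ ≤ _ := by gcongr

/-- exponential sums with a logarithmic phase -/
theorem logsum {y S E : ℕ} {θ c : ℝ} (hy : 2 ^ (2 * S + 4) ≤ y) (h0 : 0 < θ) (h1 : θ ≤ 1)
    (hE : (2 * S + 1) * 2 ^ (2 * S) ≤ E) (hθ : 2 ^ 11 ≤ θ ^ E * y)
    (hc : (y : ℝ) ^ 2 ≤ c) (hc' : c ≤ (y : ℝ) ^ S) (n : ℕ) : ∀ N : ℝ, y ^ 4 + 2 * n ≤ N →
    N ≤ 2 ^ 12 * y ^ 4 →
    ‖∑ j ∈ range n, ee (-c * Real.log (N - 2 * j))‖ ≤ 5 * (n + (y : ℝ) ^ 3) * θ := by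
  induction n using Nat.strong_induction_on with
  | _ n ih =>
    intro N hN hN'
    have y0 : 0 < y ^ 3 := pow_pos (lt_of_lt_of_le (by positivity) hy) 3
    have n0 : (0 : ℝ) ≤ n := Nat.cast_nonneg n
    rcases le_or_gt n (y ^ 3) with h | h
    · refine (logblock hy h0 h1 hE hθ (by linarith) hN' hc hc' h).trans ?_
      gcongr; linarith
    · obtain ⟨m, rfl⟩ := Nat.exists_eq_add_of_le h.le
      rw [sum_range_add]
      have a1 := logblock hy h0 h1 hE hθ (N := N) (by linarith) hN' hc hc' le_rfl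
      have a2 := ih m (by omega) (N - 2 * y ^ 3) (by push_cast at hN; linarith)
        (by linarith [pow_nonneg (Nat.cast_nonneg (α := ℝ) y) 3])
      have e : ∀ j : ℕ, N - 2 * y ^ 3 - 2 * j = N - 2 * ((y ^ 3 + j : ℕ) : ℝ) := by
        intro j
        push_cast
        ring
      simp only [e] at a2
      refine (norm_add_le _ _).trans ((add_le_add a1 a2).trans_eq ?_)
      push_cast
      ring

section
variable {Q : ℕ} [NeZero Q]

lemma orth (x : ZMod Q) : ∑ t : ZMod Q, ψ (t * x) = if x = 0 then (Q : ℂ) else 0 := by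
  have := AddChar.sum_mulShift (R := ZMod Q) (R' := ℂ) x (ZMod.isPrimitive_stdAddChar Q)
  rw [ZMod.card] at this
  simpa using this

lemma parseval (g : ZMod Q → ℂ) :
    ∑ t : ZMod Q, ‖∑ x, g x * ψ (t * x)‖ ^ 2 = Q * ∑ x, ‖g x‖ ^ 2 := by
  have h1 : ∀ z : ℂ, ((‖z‖ ^ 2 : ℝ) : ℂ) = z * conj z := fun z => by
    rw [mul_conj, normSq_eq_norm_sq]
  apply ofReal_injective
  push_cast
  simp only [← ofReal_pow, h1, map_sum, sum_mul_sum]
  have h2 : ∀ t x y : ZMod Q, g x * ψ (t * x) * conj (g y * ψ (t * y)) =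
      g x * conj (g y) * ψ (t * (x - y)) := fun t x y => by
    rw [map_mul, mul_sub, ← ψ_sub]; ring
  simp only [h2]
  rw [sum_comm, mul_sum]
  refine sum_congr rfl fun x _ => ?_
  rw [sum_comm]
  simp only [← mul_sum, orth, sub_eq_zero, mul_ite, mul_zero]
  rw [sum_ite_eq]
  simp [mul_comm]

/-- the number of points in a class -/
def cnt {ι : Type} (s : Finset ι) (w : ι → ℕ) (x : ZMod Q) : ℕ := #{i ∈ s | (w i : ZMod Q) = x}

lemma hat_cnt {ι : Type} (s : Finset ι) (w : ι → ℕ) (t : ZMod Q) :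
    ∑ x, (cnt s w x : ℂ) * ψ (t * x) = ∑ i ∈ s, ψ (t * (w i : ZMod Q)) := by
  rw [← sum_fiberwise s (fun i => (w i : ZMod Q))]
  refine sum_congr rfl fun x _ => ?_
  rw [cnt, sum_congr rfl (g := fun _ => ψ (t * x)) fun i hi => by rw [(mem_filter.1 hi).2]]
  simp

omit [NeZero Q] in
lemma cnt_nat {ι : Type} (s : Finset ι) (w : ι → ℕ) (hw : ∀ i ∈ s, w i < Q) {x : ℕ} (hx : x < Q) :
    cnt s w (x : ZMod Q) = #{i ∈ s | w i = x} := by
  rw [cnt]
  congr 1
  refine filter_congr fun i hi => ?_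
  rw [ZMod.natCast_eq_natCast_iff', Nat.mod_eq_of_lt (hw i hi), Nat.mod_eq_of_lt hx]

lemma psi_ee (t : ZMod Q) : (∀ n : ℕ, ψ (t * (n : ZMod Q)) = ee (nrm t / Q * n)) ∨
    (∀ n : ℕ, ψ (t * (n : ZMod Q)) = conj (ee (nrm t / Q * n))) := by
  have key : ∀ n : ℕ, ψ ((nrm t : ZMod Q) * (n : ZMod Q)) = ee (nrm t / Q * n) := fun n => by
    rw [← Nat.cast_mul, ψ_nat, ee]
    congr 2
    push_cast
    ring
  rcases eq_nrm t with h | h
  · left; intro n; rw [← key, ← h]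
  · right; intro n; rw [← key, ← ψ_neg, ← neg_mul, ← h]

end

/-- the variance bound -/
theorem four {ι κ : Type} (U : Finset ι) (G : Finset κ) (a : ι → ℕ) (b : κ → ℕ)
    (hb : Set.InjOn b G) (F C : ℕ) {S m : ℝ} (hm : 0 ≤ m)
    (hS : ∀ τ : ℝ, 0 ≤ τ → τ ≤ 1 / 2 → ‖∑ u ∈ U, ee (τ * a u)‖ * ‖∑ f ∈ range F, ee (τ * f)‖ *
      ‖(C : ℂ) - ∑ c ∈ range C, ee (τ * c)‖ ≤ S) (X : Finset ℕ)
    (h1 : ∀ x ∈ X, ∀ u ∈ U, ∀ p ∈ G, ∀ f < F, a u + b p + f ≠ x)
    (h2 : ∀ x ∈ X, m ≤ #{i ∈ ((U ×ˢ G) ×ˢ range F) ×ˢ range C |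
      a i.1.1.1 + b i.1.1.2 + i.1.2 + i.2 = x}) : #X * m ^ 2 ≤ S ^ 2 * #G := by
  obtain ⟨Q, hQ⟩ : ∃ Q : ℕ, Q = U.sup a + G.sup b + F + C + X.sup id + 1 := ⟨_, rfl⟩
  have : NeZero Q := ⟨by omega⟩
  have Q0 : (0 : ℝ) < Q := Nat.cast_pos.2 (NeZero.pos Q)
  set s1 := (U ×ˢ G) ×ˢ range F with hs1
  set w1 : (ι × κ) × ℕ → ℕ := fun i => a i.1.1 + b i.1.2 + i.2 with hw1
  set w2 : ((ι × κ) × ℕ) × ℕ → ℕ := fun i => a i.1.1.1 + b i.1.1.2 + i.1.2 + i.2 with hw2
  set D : ZMod Q → ℂ := fun x => C * cnt s1 w1 x - cnt (s1 ×ˢ range C) w2 x with hD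
  have l1 : ∀ i ∈ s1, w1 i + C < Q := fun i hi => by
    simp only [hs1, mem_product, mem_range] at hi
    have := le_sup (f := a) hi.1.1
    have := le_sup (f := b) hi.1.2
    simp only [hw1]
    omega
  have l2 : ∀ i ∈ s1 ×ˢ range C, w2 i < Q := fun i hi => by
    have := l1 i.1 (mem_product.1 hi).1
    have := mem_range.1 (mem_product.1 hi).2
    simp only [hw1, hw2] at *
    omega
  have lX : ∀ x ∈ X, x < Q := fun x hx => by
    have := le_sup (f := id) hx
    simp only [id] at this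
    omega
  have hat : ∀ t : ZMod Q, ∑ x, D x * ψ (t * x) = (∑ p ∈ G, ψ (t * (b p : ZMod Q))) *
      ((∑ u ∈ U, ψ (t * (a u : ZMod Q))) * (∑ f ∈ range F, ψ (t * ((f : ℕ) : ZMod Q))) *
        (C - ∑ c ∈ range C, ψ (t * ((c : ℕ) : ZMod Q)))) := fun t => by
    have e1 : ∑ i ∈ s1, ψ (t * (w1 i : ZMod Q)) = (∑ u ∈ U, ψ (t * (a u : ZMod Q))) * (∑ p ∈ G, ψ (t * (b p : ZMod Q))) *
        (∑ f ∈ range F, ψ (t * ((f : ℕ) : ZMod Q))) := by
      simp only [hs1, hw1, sum_product, Nat.cast_add, mul_add, ψ_add, ← mul_sum, ← sum_mul]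
    have e2 : ∑ i ∈ s1 ×ˢ range C, ψ (t * (w2 i : ZMod Q)) = (∑ i ∈ s1, ψ (t * (w1 i : ZMod Q))) *
        (∑ c ∈ range C, ψ (t * ((c : ℕ) : ZMod Q))) := by
      simp only [sum_product, hw1, hw2, Nat.cast_add, mul_add, ψ_add, ← mul_sum, ← sum_mul]
    simp only [hD, sub_mul, mul_assoc, sum_sub_distrib, ← mul_sum, hat_cnt]
    rw [e2, e1]
    ring
  have bd : ∀ t : ZMod Q, ‖∑ x, D x * ψ (t * x)‖ ^ 2 ≤
      S ^ 2 * ‖∑ x, (cnt G b x : ℂ) * ψ (t * x)‖ ^ 2 := fun t => by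
    have t2 : (nrm t / Q : ℝ) ≤ 1 / 2 := by
      have : 2 * nrm t ≤ Q := by have := nrm_le t; omega
      have : (2 * nrm t : ℝ) ≤ Q := by exact_mod_cast this
      rw [div_le_iff₀ Q0]; linarith
    have := hS _ (by positivity) t2
    rw [hat, hat_cnt, norm_mul, mul_pow, mul_comm]
    refine mul_le_mul_of_nonneg_right (pow_le_pow_left₀ (norm_nonneg _) ?_ 2) (by positivity)
    rw [norm_mul, norm_mul]
    rcases psi_ee t with h | h
    · simpa only [h] using this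
    · simp only [h, ← map_sum, norm_conj]
      rwa [← map_natCast (starRingEnd ℂ) C, ← map_sub, norm_conj]
  have pB : ∑ x : ZMod Q, ‖(cnt G b x : ℂ)‖ ^ 2 = #G := by
    rw [card_eq_sum_card_fiberwise (f := fun p => (b p : ZMod Q)) (t := univ) (by simp)]
    push_cast
    refine sum_congr rfl fun x _ => ?_
    have : cnt G b x ≤ 1 := card_le_one.2 fun p hp q hq => by
      have hp' := mem_filter.1 hp
      have hq' := mem_filter.1 hq
      have := le_sup (f := b) hp'.1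
      have := le_sup (f := b) hq'.1
      refine hb hp'.1 hq'.1 ?_
      have h := hp'.2.trans hq'.2.symm
      rwa [ZMod.natCast_eq_natCast_iff', Nat.mod_eq_of_lt (by omega),
        Nat.mod_eq_of_lt (by omega)] at h
    change _ = (cnt G b x : ℝ)
    rw [norm_natCast]
    interval_cases cnt G b x <;> simp
  have main : ∑ x, ‖D x‖ ^ 2 ≤ S ^ 2 * #G := by
    have := sum_le_sum (s := univ) fun t _ => bd t
    rw [← mul_sum, parseval, parseval, pB] at this
    nlinarith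
  refine le_trans ?_ main
  have inj : Set.InjOn (fun x : ℕ => (x : ZMod Q)) X := fun x hx y hy h => by
    simp only at h
    rwa [ZMod.natCast_eq_natCast_iff', Nat.mod_eq_of_lt (lX x hx),
      Nat.mod_eq_of_lt (lX y hy)] at h
  calc _ = ∑ x ∈ X, m ^ 2 := by simp
    _ ≤ ∑ x ∈ X, ‖D x‖ ^ 2 := sum_le_sum fun x hx => by
        refine pow_le_pow_left₀ hm ?_ 2
        have z : #{i ∈ s1 | w1 i = x} = 0 := by
          rw [card_eq_zero, filter_eq_empty_iff]
          intro i hi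
          simp only [hs1, mem_product, mem_range] at hi
          exact h1 x hx _ hi.1.1 _ hi.1.2 _ hi.2
        simp only [hD]
        rw [cnt_nat s1 w1 (fun i hi => by have := l1 i hi; omega) (lX x hx),
          cnt_nat _ w2 l2 (lX x hx), z]
        simpa using h2 x hx
    _ = ∑ x ∈ X.image (fun x : ℕ => (x : ZMod Q)), ‖D x‖ ^ 2 :=
        (sum_image (f := fun x => ‖D x‖ ^ 2) inj).symm
    _ ≤ _ := sum_le_sum_of_subset_of_nonneg (subset_univ _) fun _ _ _ => by positivity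

/-- the discrete logarithmic scale -/
noncomputable def ell (M n : ℕ) : ℕ := ⌊M * Real.log n⌋₊

lemma ell_le (M n : ℕ) : (ell M n : ℝ) ≤ M * Real.log n :=
  Nat.floor_le (mul_nonneg (Nat.cast_nonneg M) (Real.log_natCast_nonneg n))

lemma lt_ell (M n : ℕ) : M * Real.log n < ell M n + 1 := Nat.lt_floor_add_one _

lemma sub_le_log {x y : ℝ} (hx : 0 < x) (hy : 0 < y) :
    y - x ≤ y * (Real.log y - Real.log x) := by
  have := Real.one_sub_inv_le_log_of_pos (div_pos hy hx)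
  rw [Real.log_div hy.ne' hx.ne', inv_div] at this
  have h := mul_le_mul_of_nonneg_left this hy.le
  rwa [mul_sub, mul_one, mul_div_cancel₀ _ hy.ne'] at h

lemma ell_gap {M x y : ℕ} (hx : 0 < x) (hxy : x ≤ y) (h : ell M x = ell M y) :
    M * (y - x) < y := by
  have x0 : (0 : ℝ) < x := by exact_mod_cast hx
  have y0 : (0 : ℝ) < y := by exact_mod_cast hx.trans_le hxy
  have h1 := sub_le_log x0 y0
  have h2 := ell_le M y
  have h3 := lt_ell M x
  have h4 := ell_le M x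
  have h5 := lt_ell M y
  rw [h] at h3 h4
  have : (M : ℝ) * (y - x) < y :=
    calc _ ≤ M * (y * (Real.log y - Real.log x)) := by gcongr
      _ = y * (M * Real.log y - M * Real.log x) := by ring
      _ < y * 1 := by gcongr; linarith
      _ = _ := mul_one _
  rw [← Nat.cast_sub hxy] at this
  exact_mod_cast this

lemma sum_ee_le {ι : Type} (s : Finset ι) (f : ι → ℝ) : ‖∑ i ∈ s, ee (f i)‖ ≤ #s :=
  (norm_sum_le _ _).trans (by simp [norm_ee])

/-- the multipliers -/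
def mu (P j : ℕ) : ℕ := 256 * P - 7 - 8 * j

lemma sup_bound {e P y S E M : ℕ} (he : e = 1 ∨ e = 2) {θ : ℝ} (hy : 2 ^ (2 * S + 4) ≤ y)
    (h0 : 0 < θ) (h1 : θ ≤ 1) (hE : (2 * S + 1) * 2 ^ (2 * S) ≤ E) (hθ : 2 ^ 11 ≤ θ ^ E * y)
    (hP : 5 * y ^ 4 ≤ P) (hP' : P ≤ 64 * y ^ 4) (hM : M ≤ y ^ S) (τ : ℝ) (t0 : 0 ≤ τ)
    (t1 : τ ≤ 1 / 2) : ‖∑ j ∈ range (255 * P / 8), ee (τ * ell M (mu P j ^ e))‖ *
      ‖∑ f ∈ range P, ee (τ * f)‖ * ‖((M / y ^ 3 : ℕ) : ℂ) - ∑ c ∈ range (M / y ^ 3), ee (τ * c)‖ ≤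
      800 * P ^ 2 * (M / y ^ 3 : ℕ) * θ := by
  have y1 : 16 ≤ y := le_trans (Nat.pow_le_pow_right two_pos (by omega) : 2 ^ 4 ≤ _) hy
  have y2 : (16 : ℝ) ≤ y := by exact_mod_cast y1
  have E1 : E ≠ 0 := (lt_of_lt_of_le (by positivity) hE).ne'
  have ty : 2 ^ 11 ≤ θ * y := hθ.trans (by gcongr; exact pow_le_of_le_one h0.le h1 E1)
  have p1 : 5 * (y : ℝ) ^ 4 ≤ P := by exact_mod_cast hP
  have p2 : (P : ℝ) ≤ 64 * y ^ 4 := by exact_mod_cast hP'
  have p3 : (y : ℝ) ^ 3 ≤ y ^ 4 := pow_le_pow_right₀ (by linarith) (by norm_num)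
  have p4 : (y : ℝ) ^ 2 ≤ y ^ 3 := pow_le_pow_right₀ (by linarith) (by norm_num)
  have p5 : (256 : ℝ) ≤ y ^ 2 := by nlinarith
  have hC : ((M / y ^ 3 : ℕ) : ℝ) * y ^ 3 ≤ M := by exact_mod_cast Nat.div_mul_le_self M (y ^ 3)
  have hn : 8 * ((255 * P / 8 : ℕ) : ℝ) ≤ 255 * P := by
    exact_mod_cast Nat.mul_div_le (255 * P) 8
  have hu : ∀ j ∈ range (255 * P / 8), (mu P j : ℝ) = 256 * P - 7 - 8 * j := fun j hj => by
    have := mem_range.1 hj
    have : 0 < y ^ 4 := by positivity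
    rw [mu, Nat.cast_sub (by omega), Nat.cast_sub (by omega)]
    push_cast
    rfl
  generalize M / y ^ 3 = C at *
  generalize 255 * P / 8 = n at *
  have C0 : (0 : ℝ) ≤ C := Nat.cast_nonneg C
  have P0 : (0 : ℝ) < P := by nlinarith
  have a1 : ‖∑ j ∈ range n, ee (τ * ell M (mu P j ^ e))‖ ≤ 32 * P :=
    (sum_ee_le _ _).trans (by rw [card_range]; linarith)
  have a2 : ‖∑ f ∈ range P, ee (τ * f)‖ ≤ P := by simpa using sum_ee_le (range P) fun f => τ * f
  have a3 : ‖(C : ℂ) - ∑ c ∈ range C, ee (τ * c)‖ ≤ 2 * C := by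
    refine (norm_sub_le _ _).trans ?_
    have := sum_ee_le (range C) fun f => τ * f
    rw [card_range] at this
    rw [norm_natCast]
    linarith
  have b0 : 0 ≤ (P : ℝ) ^ 2 * C * θ := by positivity
  by_cases c1 : τ * M ≤ y ^ 2
  · have a4 : ‖(C : ℂ) - ∑ c ∈ range C, ee (τ * c)‖ ≤ C * (7 * θ) := by
      have e1 : (C : ℂ) - ∑ c ∈ range C, ee (τ * c) = ∑ c ∈ range C, (ee 0 - ee (τ * c)) := by
        simp [ee]
      have e2 : τ * C ≤ θ := by
        have : τ * (C * y ^ 3) ≤ y ^ 2 := le_trans (by gcongr) c1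
        by_contra hh
        have : θ * y ^ 3 ≤ τ * C * y ^ 3 := by gcongr; linarith
        nlinarith
      rw [e1]
      refine (norm_sum_le _ _).trans ((sum_le_card_nsmul _ _ (7 * θ) fun c hc => ?_).trans
        (by simp))
      refine (ee_lip _ _).trans ?_
      have : (c : ℝ) ≤ C := by exact_mod_cast (mem_range.1 hc).le
      rw [zero_sub, abs_neg, abs_of_nonneg (by positivity)]
      nlinarith
    calc _ ≤ 32 * P * P * (C * (7 * θ)) := by gcongr
      _ ≤ _ := by nlinarith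
  by_cases c2 : 1 ≤ τ * (P * θ)
  · have τ0 : 0 < τ := by
      rcases t0.eq_or_lt with h | h
      · rw [← h] at c2; linarith
      · exact h
    have a4 : ‖∑ f ∈ range P, ee (τ * f)‖ ≤ 2 * (P * θ) := by
      refine (kusmin_landau (fun j => ee (τ * j)) (fun _ => τ) P τ0 (fun _ => norm_ee _)
        (fun j _ => ?_) le_rfl (fun _ _ => le_rfl) fun _ _ => t1).trans ?_
      · change ee _ = ee _ * ee _
        rw [← ee_add]; push_cast; congr 1; ring
      · rw [div_le_iff₀ τ0]; nlinarith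
    calc _ ≤ 32 * P * (2 * (P * θ)) * (2 * C) := by gcongr
      _ ≤ _ := by nlinarith
  have e1 : (1 : ℝ) ≤ e ∧ (e : ℝ) ≤ 2 := by rcases he with rfl | rfl <;> norm_num
  have M0 : (0 : ℝ) ≤ M := Nat.cast_nonneg M
  have τθ : τ ≤ θ := by
    by_contra hh
    have h2 : θ * (P * θ) ≤ τ * (P * θ) := by gcongr; linarith
    have h3 : (θ * y) ^ 2 ≤ θ ^ 2 * P := by rw [mul_pow]; gcongr; linarith
    nlinarith
  have l1 := logsum (c := τ * M * e) hy h0 h1 hE hθ (by nlinarith [mul_nonneg t0 M0]) (by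
    have : (M : ℝ) ≤ y ^ S := by exact_mod_cast hM
    have : τ * e ≤ 1 := by nlinarith
    nlinarith) n ((256 * P - 7) / 4) (by nlinarith) (by nlinarith)
  have l2 : ‖∑ j ∈ range n, ee (τ * (M * Real.log (mu P j ^ e : ℕ)))‖ =
      ‖∑ j ∈ range n, ee (-(τ * M * e) * Real.log ((256 * P - 7) / 4 - 2 * j))‖ := by
    rw [← norm_conj, ← one_mul ‖∑ j ∈ range n, ee (-_ * _)‖,
      ← norm_ee (-(τ * M * e) * Real.log 4), ← norm_mul, map_sum, mul_sum]
    congr 1
    refine sum_congr rfl fun j hj => ?_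
    have : (j : ℝ) ≤ n := by exact_mod_cast (mem_range.1 hj).le
    rw [← ee_neg, ← ee_add, ← mul_add, ← Real.log_mul (by norm_num) (by nlinarith), Nat.cast_pow,
      Real.log_pow, hu j hj]
    congr 1
    rw [show 4 * ((256 * (P : ℝ) - 7) / 4 - 2 * j) = 256 * P - 7 - 8 * j by ring]
    ring
  have l3 : ‖∑ j ∈ range n, ee (τ * ell M (mu P j ^ e)) -
      ∑ j ∈ range n, ee (τ * (M * Real.log (mu P j ^ e : ℕ)))‖ ≤ n * (7 * θ) := by
    rw [← sum_sub_distrib]
    refine (norm_sum_le _ _).trans ((sum_le_card_nsmul _ _ (7 * θ) fun j _ => ?_).trans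
      (by simp))
    refine (ee_lip _ _).trans ?_
    have := ell_le M (mu P j ^ e)
    have := lt_ell M (mu P j ^ e)
    rw [← mul_sub, abs_mul, abs_of_nonneg t0, abs_of_nonpos (by linarith)]
    nlinarith
  have a4 : ‖∑ j ∈ range n, ee (τ * ell M (mu P j ^ e))‖ ≤ 400 * P * θ := by
    have := norm_le_insert' (∑ j ∈ range n, ee (τ * ell M (mu P j ^ e)))
      (∑ j ∈ range n, ee (τ * (M * Real.log (mu P j ^ e : ℕ))))
    have : (12 * n + 5 * y ^ 3) * θ ≤ 400 * P * θ := by gcongr; linarith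
    linarith
  calc _ ≤ 400 * P * θ * P * (2 * C) := by gcongr
    _ = _ := by ring

lemma window {e P y M z g : ℕ} (he : e = 1 ∨ e = 2) (y1 : 16 ≤ y) (hP : 5 * y ^ 4 ≤ P)
    (hM : 8 * y ^ 3 * (P + 3) ≤ M) (hg : 0 < g) (lo : 19 * (P ^ e * g) ≤ 10 * z)
    (hi : z ≤ 128 * (P ^ e * g)) :
    y / 16 ≤ #{j ∈ range (255 * P / 8) | ell M (mu P j ^ e) + (ell M g + 2) + P ≤ ell M z ∧
      ell M z < ell M (mu P j ^ e) + (ell M g + 2) + M / y ^ 3} := by
  have y2 : (16 : ℝ) ≤ y := by exact_mod_cast y1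
  have y5 : 5 * y ≤ P := le_trans (Nat.mul_le_mul_left 5 (Nat.le_self_pow (by norm_num) y)) hP
  have y6 : 5 * (y : ℝ) ≤ P := by exact_mod_cast y5
  have P0 : (0 : ℝ) < P := by linarith
  have g0 : (0 : ℝ) < g := by exact_mod_cast hg
  have p1 : 5 * (y : ℝ) ^ 4 ≤ P := by exact_mod_cast hP
  have m1 : 8 * (y : ℝ) ^ 3 * (P + 3) ≤ M := by exact_mod_cast hM
  have lo' : 19 * ((P : ℝ) ^ e * g) ≤ 10 * z := by exact_mod_cast lo
  have hi' : (z : ℝ) ≤ 128 * (P ^ e * g) := by exact_mod_cast hi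
  have w0 : 0 < (P : ℝ) ^ e * g := by positivity
  have z0 : (0 : ℝ) < z := by linarith
  have y3 : (1 : ℝ) ≤ y ^ 3 := one_le_pow₀ (by linarith)
  have M0 : (0 : ℝ) < M := lt_of_lt_of_le (by positivity) m1
  have e1 : (1 : ℝ) ≤ e ∧ (e : ℝ) ≤ 2 := by rcases he with rfl | rfl <;> norm_num
  have hC : (M : ℝ) ≤ 2 * y ^ 3 * (M / y ^ 3 : ℕ) := by
    have h1 := Nat.lt_div_mul_add (a := M) (b := y ^ 3) (by positivity)
    have h2 : 1 ≤ M / y ^ 3 := (Nat.le_div_iff_mul_le (by positivity)).2 (by nlinarith)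
    have : M ≤ 2 * y ^ 3 * (M / y ^ 3) := by nlinarith
    exact_mod_cast this
  generalize M / y ^ 3 = C at *
  set η : ℝ := (P + 3) / M with hη
  have η0 : 0 ≤ η := by positivity
  have η1 : M * η = P + 3 := by rw [hη]; field_simp
  have η2 : 8 * y ^ 3 * η ≤ 1 := by
    rw [hη, ← mul_div_assoc, div_le_one M0]; exact m1
  set v := Real.exp ((Real.log z - Real.log g - η) / e) with hv
  have v0 : 0 < v := Real.exp_pos _
  have v1 : e * Real.log v = Real.log z - Real.log g - η := by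
    rw [hv, Real.log_exp, mul_div_cancel₀ _ (by linarith)]
  have u1 : P + y ≤ ⌊v⌋₊ := by
    have q0 : (0 : ℝ) < (P + y : ℕ) := by push_cast; linarith
    refine Nat.le_floor ((Real.log_le_log_iff q0 v0).1 ?_)
    refine le_of_mul_le_mul_left ?_ (by linarith : (0 : ℝ) < e)
    have a1 : ((P + y : ℕ) : ℝ) ^ e ≤ 36 / 25 * P ^ e := by
      push_cast
      rcases he with rfl | rfl <;> nlinarith
    have a2 := sub_le_log (x := ((P + y : ℕ) : ℝ) ^ e * g) (by positivity) z0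
    rw [Real.log_mul (by positivity) g0.ne', Real.log_pow] at a2
    have a3 : ((P + y : ℕ) : ℝ) ^ e * g ≤ 36 / 25 * P ^ e * g := by gcongr
    have a4 : z * (1 / 8 : ℝ) ≤ z * (Real.log z - (e * Real.log (P + y : ℕ) + Real.log g)) := by
      linarith
    have a5 := le_of_mul_le_mul_left a4 z0
    nlinarith
  have u2 : ⌊v⌋₊ ≤ 128 * P := by
    refine Nat.floor_le_of_le ((Real.log_le_log_iff v0 (by push_cast; positivity)).1 ?_)
    refine le_of_mul_le_mul_left ?_ (by linarith : (0 : ℝ) < e)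
    have a1 : (z : ℝ) ≤ ((128 * P : ℕ) : ℝ) ^ e * g := by
      push_cast
      rcases he with rfl | rfl <;> nlinarith
    have a2 := Real.log_le_log z0 a1
    rw [Real.log_mul (by push_cast; positivity) g0.ne', Real.log_pow] at a2
    linarith
  have u3 := Nat.floor_le v0.le
  have u4 := Nat.lt_floor_add_one v
  generalize ⌊v⌋₊ = u at *
  refine le_trans (by simp) (card_le_card (s := Ico ((256 * P - u) / 8)
    ((256 * P - u) / 8 + y / 16)) fun j hj => ?_)
  rw [mem_Ico] at hj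
  have j1 : mu P j ≤ u ∧ 2 * (u + 1) ≤ 2 * mu P j + y ∧ P ≤ mu P j := by
    unfold mu
    omega
  rw [mem_filter, mem_range]
  refine ⟨by omega, ?_⟩
  generalize mu P j = w at *
  have w1 : (w : ℝ) ≤ u := by exact_mod_cast j1.1
  have w2 : 2 * ((u : ℝ) + 1) ≤ 2 * w + y := by exact_mod_cast j1.2.1
  have w3 : (P : ℝ) ≤ w := by exact_mod_cast j1.2.2
  have b1 : Real.log w ≤ Real.log v := Real.log_le_log (by linarith) (by linarith)
  have b2 : 10 * y ^ 3 * (Real.log v - Real.log w) ≤ 1 := by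
    have c1 := Real.log_le_sub_one_of_pos (div_pos v0 (by linarith : (0 : ℝ) < w))
    rw [Real.log_div v0.ne' (by linarith), div_sub_one (by linarith),
      le_div_iff₀ (by linarith)] at c1
    have c2 : (Real.log v - Real.log w) * (5 * y ^ 4) ≤ (Real.log v - Real.log w) * w :=
      mul_le_mul_of_nonneg_left (by linarith) (by linarith)
    refine le_of_mul_le_mul_left ?_ (by linarith : (0 : ℝ) < y)
    nlinarith
  have f1 := ell_le M z
  have f2 := lt_ell M z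
  have f3 := ell_le M g
  have f4 := lt_ell M g
  have f5 := ell_le M (w ^ e)
  have f6 := lt_ell M (w ^ e)
  rw [Nat.cast_pow, Real.log_pow] at f5 f6
  have v2 : M * Real.log z - M * Real.log g - M * (e * Real.log w) =
      P + 3 + M * (e * (Real.log v - Real.log w)) := by
    rw [← η1, mul_sub (e : ℝ), v1]; ring
  have b3 : 0 ≤ M * (e * (Real.log v - Real.log w)) := by
    have := sub_nonneg.2 b1
    positivity
  have b4 : P + 3 + M * (e * (Real.log v - Real.log w)) ≤ C := by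
    refine le_of_mul_le_mul_left (le_trans ?_ hC) (by positivity)
    have : M * (e * (Real.log v - Real.log w)) ≤ M * (2 * (Real.log v - Real.log w)) := by
      have := sub_nonneg.2 b1
      gcongr
      exact e1.2
    have : M * (10 * y ^ 3 * (Real.log v - Real.log w)) ≤ M * 1 := by gcongr
    nlinarith
  constructor
  · have : (ell M (w ^ e) + (ell M g + 2) + P : ℝ) ≤ ell M z := by linarith
    exact_mod_cast this
  · have : (ell M z : ℝ) < ell M (w ^ e) + (ell M g + 2) + C := by linarith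
    exact_mod_cast this

lemma count_lower {ι κ : Type} (U : Finset ι) (G : Finset κ) (a : ι → ℕ) (b : κ → ℕ)
    (F C x J : ℕ) (G' : Finset κ) (hG : G' ⊆ G)
    (h : ∀ p ∈ G', J ≤ #{u ∈ U | a u + b p + F ≤ x ∧ x < a u + b p + C}) :
    #G' * J * F ≤ #{i ∈ ((U ×ˢ G) ×ˢ range F) ×ˢ range C |
      a i.1.1.1 + b i.1.1.2 + i.1.2 + i.2 = x} := by
  have h1 : #G' * J ≤ #{i ∈ U ×ˢ G' | a i.1 + b i.2 + F ≤ x ∧ x < a i.1 + b i.2 + C} := by
    rw [card_filter, sum_product_right]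
    refine le_trans (by simp) (card_nsmul_le_sum G' _ J fun p hp => (h p hp).trans_eq ?_)
    rw [card_filter]
  refine (Nat.mul_le_mul_right F h1).trans (le_of_eq_of_le
    ((congrArg _ (card_range F).symm).trans (card_product _ (range F)).symm) ?_)
  refine card_le_card_of_injOn (fun i => (i, x - (a i.1.1 + b i.1.2 + i.2))) (fun i hi => ?_)
    fun i _ j _ hij => congrArg Prod.fst hij
  simp only [coe_product, coe_filter, mem_product, mem_range, Set.mem_prod, Set.mem_ofPred_eq,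
    coe_range, Set.mem_Iio] at hi ⊢
  refine ⟨⟨⟨⟨hi.1.1.1, hG hi.1.1.2⟩, hi.2⟩, ?_⟩, ?_⟩ <;> omega

lemma hit {e P M z g u f Z : ℕ} (hP : 2 ≤ P) (hu : 0 < u) (hg : 0 < g) (hz : 0 < z)
    (hZ : z ≤ Z) (hM : Z < M * P ^ e) (hf : f < P)
    (h : ell M (u ^ e) + (ell M g + 2) + f = ell M z) :
    u ^ e * g < z ∧ z ≤ u ^ e * g + P ^ (e + 2) := by
  have f1 := ell_le M z
  have f2 := lt_ell M z
  have f3 := ell_le M g
  have f4 := lt_ell M g
  have f5 := ell_le M (u ^ e)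
  have f6 := lt_ell M (u ^ e)
  have h' : (ell M (u ^ e) + (ell M g + 2) + f : ℝ) = ell M z := by exact_mod_cast h
  have hf' : (f : ℝ) + 1 ≤ P := by exact_mod_cast hf
  have f0 : (0 : ℝ) ≤ f := Nat.cast_nonneg f
  have z0 : (0 : ℝ) < z := by exact_mod_cast hz
  have h0 : (0 : ℝ) < (u ^ e * g : ℕ) := by positivity
  have M0 : (0 : ℝ) ≤ M := Nat.cast_nonneg M
  have l : Real.log (u ^ e * g : ℕ) = Real.log (u ^ e : ℕ) + Real.log g := by
    rw [Nat.cast_mul, Real.log_mul (by positivity) (by positivity)]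
  constructor
  · have : M * Real.log (u ^ e * g : ℕ) < M * Real.log z := by rw [l]; linarith
    exact_mod_cast (Real.log_lt_log_iff h0 z0).1 (lt_of_mul_lt_mul_left this M0)
  · have a1 := sub_le_log h0 z0
    have a2 : (z : ℝ) ≤ M * P ^ e := by exact_mod_cast hZ.trans hM.le
    have P2 : (2 : ℝ) ≤ P := by exact_mod_cast hP
    have M1 : (0 : ℝ) < M := by
      rcases M0.eq_or_lt with h | h
      · rw [← h] at a2; linarith
      · exact h
    have : M * (z - (u ^ e * g : ℕ) : ℝ) ≤ M * P ^ (e + 2) :=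
      calc _ ≤ M * (z * (Real.log z - Real.log (u ^ e * g : ℕ))) := by gcongr
        _ = z * (M * Real.log z - M * Real.log (u ^ e * g : ℕ)) := by ring
        _ ≤ z * (P + 2) := by gcongr; rw [l]; linarith
        _ ≤ M * P ^ e * P ^ 2 := by gcongr; nlinarith
        _ = _ := by ring
    have := le_of_mul_le_mul_left this M1
    have : (z : ℝ) ≤ (u ^ e * g : ℕ) + P ^ (e + 2) := by linarith
    exact_mod_cast this

open Classical in
lemma core {e b P y S E Z : ℕ} (he : e = 1 ∨ e = 2) (hb : b ≤ 1) {θ ε D : ℝ} (pr : ℕ → Prop)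
    (hD : 0 < D) (hpr : ∀ x : ℕ, P ≤ x →
      (x : ℝ) / (D * Real.log x) ≤ #{p ∈ Ioc 0 x | x < 64 * p ∧ pr p})
    (hy : 2 ^ (2 * S + 4) ≤ y) (h0 : 0 < θ) (h1 : θ ≤ 1) (hE : (2 * S + 1) * 2 ^ (2 * S) ≤ E)
    (hθ : 2 ^ 11 ≤ θ ^ E * y) (hP : 5 * y ^ 4 ≤ P) (hP' : P ≤ 64 * y ^ 4) (hZ : P ^ 10 ≤ Z)
    (hZ' : Z ≤ y ^ S) (ε0 : 0 < ε) (hε : 8 ≤ ε * P)
    (hs : 2 ^ 53 * (D * θ * Real.log Z) ^ 2 ≤ ε ^ 3) :
    (#{z ∈ Ioc 0 Z | ¬∃ u p : ℕ, u % 8 = 1 ∧ P ≤ u ∧ u ≤ 256 * P ∧ pr p ∧ u ^ e * (p + b) < z ∧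
      z ≤ u ^ e * (p + b) + P ^ (e + 2)} : ℝ) ≤ ε * Z := by
  have y1 : 16 ≤ y := le_trans (Nat.pow_le_pow_right two_pos (by omega) : 2 ^ 4 ≤ _) hy
  have y5 : 5 * y ≤ P := le_trans (Nat.mul_le_mul_left 5 (Nat.le_self_pow (by norm_num) y)) hP
  have k1 : P ≤ P ^ e := Nat.le_self_pow (by omega) P
  have k2 : P ^ e ≤ P ^ 2 := Nat.pow_le_pow_right (by omega) (by omega)
  set K := P ^ e with hK
  set M := Z / K + 1 with hM
  have m1 : Z < M * K := by
    rw [hM, add_mul, one_mul]; exact Nat.lt_div_mul_add (by omega)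
  have m2 : P ^ 8 ≤ Z / K := by
    refine (Nat.le_div_iff_mul_le (by omega)).2 (le_trans ?_ hZ)
    calc _ ≤ P ^ 8 * P ^ 2 := by gcongr
      _ = _ := by ring
  have m3 : 8 * y ^ 3 * (P + 3) ≤ M := by
    have a1 : 8 * y ^ 3 ≤ P := le_trans (by nlinarith [pow_pos (by omega : 0 < y) 3]) hP
    have a2 : P ^ 3 ≤ P ^ 8 := Nat.pow_le_pow_right (by omega) (by omega)
    have a3 : P * (P + 3) ≤ P ^ 3 := by nlinarith [Nat.mul_le_mul_left (P * P) (by omega : 4 ≤ P)]
    have := Nat.mul_le_mul_right (P + 3) a1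
    omega
  have m5 : 1 ≤ Z / K := le_trans (Nat.one_le_pow _ _ (by omega)) m2
  have m4 : M ≤ Z := by nlinarith [Nat.div_mul_le_self Z K]
  set B := {z ∈ Ioc 0 Z | ¬∃ u p : ℕ, u % 8 = 1 ∧ P ≤ u ∧ u ≤ 256 * P ∧ pr p ∧
    u ^ e * (p + b) < z ∧ z ≤ u ^ e * (p + b) + P ^ (e + 2)} with hB
  set B' := B.filter (fun z : ℕ => ε * Z / 2 < z) with hB'
  set G := {p ∈ Ioc 0 (Z / (2 * K)) | pr p} with hG
  have Z1 : (1 : ℝ) < Z := by exact_mod_cast (by omega : 1 < Z)
  have lZ := Real.log_pos Z1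
  have K0 : (0 : ℝ) < K := by exact_mod_cast (by omega : 0 < K)
  have P0 : (0 : ℝ) < P := by exact_mod_cast (by omega : 0 < P)
  have y2 : (16 : ℝ) ≤ y := by exact_mod_cast y1
  have hJ : (y : ℝ) / 32 ≤ (y / 16 : ℕ) := by
    have : y ≤ 32 * (y / 16) := by omega
    have : (y : ℝ) ≤ 32 * (y / 16 : ℕ) := by exact_mod_cast this
    linarith
  have main := four (range (255 * P / 8)) G (fun j => ell M (mu P j ^ e))
    (fun p => ell M (p + b) + 2) (fun p hp p' hp' h => ?_) P (M / y ^ 3)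
    (m := ε * Z / (8 * K) / (D * Real.log Z) * (y / 32) * P) (by positivity)
    (sup_bound he hy h0 h1 hE hθ hP hP' (m4.trans hZ')) (B'.image (ell M)) ?_ ?_
  · have g1 : (#G : ℝ) * K ≤ Z := by
      have : #G ≤ Z / (2 * K) := (card_filter_le _ _).trans (by simp)
      have : #G * K ≤ Z := by nlinarith [Nat.div_mul_le_self Z (2 * K)]
      exact_mod_cast this
    have g2 : (#B' : ℝ) ≤ K * #(B'.image (ell M)) := by
      have : #B' ≤ K * #(B'.image (ell M)) := card_le_mul_card_image _ _ fun x hx => by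
        obtain ⟨z, hz, rfl⟩ := mem_image.1 hx
        obtain ⟨w, hw, hw'⟩ := exists_min_image {a ∈ B' | ell M a = ell M z} id
          ⟨z, mem_filter.2 ⟨hz, rfl⟩⟩
        refine le_trans (card_le_card (t := Ico w (w + K)) fun a ha => ?_) (by simp)
        have a1 : w ≤ a := hw' a ha
        have a2 := mem_Ioc.1 (mem_filter.1 (mem_filter.1 (mem_filter.1 hw).1).1).1
        have a3 := mem_Ioc.1 (mem_filter.1 (mem_filter.1 (mem_filter.1 ha).1).1).1
        have a4 := ell_gap a2.1 a1 ((mem_filter.1 hw).2.trans (mem_filter.1 ha).2.symm)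
        have a5 : a - w < K := lt_of_mul_lt_mul_left (a4.trans_le (a3.2.trans m1.le)) (Nat.zero_le M)
        rw [mem_Ico]
        omega
      exact_mod_cast this
    have g3 : ((M / y ^ 3 : ℕ) : ℝ) * y ^ 3 * K ≤ 2 * Z := by
      have := Nat.div_mul_le_self M (y ^ 3)
      have : M / y ^ 3 * y ^ 3 * K ≤ 2 * Z := by
        refine (Nat.mul_le_mul_right K this).trans ?_
        nlinarith [Nat.div_mul_le_self Z K]
      exact_mod_cast this
    have g4 : (#B : ℝ) ≤ ε * Z / 2 + #B' := by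
      have : #B ≤ ⌊ε * Z / 2⌋₊ + #B' := by
        refine le_trans (card_le_card (t := Ioc 0 ⌊ε * Z / 2⌋₊ ∪ B') fun z hz => ?_)
          ((card_union_le _ _).trans (by simp))
        rw [mem_union, mem_Ioc, mem_filter, Nat.le_floor_iff (by positivity)]
        have := (mem_Ioc.1 (mem_filter.1 hz).1).1
        rcases le_or_gt (z : ℝ) (ε * Z / 2) with h | h
        · exact Or.inl ⟨this, h⟩
        · exact Or.inr ⟨hz, h⟩
      have h2 := Nat.floor_le (by positivity : 0 ≤ ε * Z / 2)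
      have : (#B : ℝ) ≤ ⌊ε * Z / 2⌋₊ + #B' := by exact_mod_cast this
      linarith
    generalize (M / y ^ 3 : ℕ) = C at *
    set m := ε * Z / (8 * K) / (D * Real.log Z) * (y / 32) * P with hm
    have m0 : 0 < m := by positivity
    have p2 : (P : ℝ) ≤ 64 * y ^ 4 := by exact_mod_cast hP'
    have g5 : 800 * P ^ 2 * C * θ * ε ≤ 2 ^ 26 * (D * θ * Real.log Z) * m := by
      have e : 2 ^ 26 * (D * θ * Real.log Z) * m = 2 ^ 18 * θ * ε * P * y * Z / K := by
        rw [hm]; field_simp; norm_num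
      rw [e, le_div_iff₀ K0]
      calc _ = 800 * θ * ε * P * (P * C * K) := by ring
        _ ≤ 800 * θ * ε * P * (64 * y ^ 4 * C * K) := by gcongr
        _ = 51200 * θ * ε * P * y * (C * y ^ 3 * K) := by ring
        _ ≤ 51200 * θ * ε * P * y * (2 * Z) := by gcongr
        _ ≤ _ := by nlinarith [show 0 ≤ θ * ε * P * y * Z by positivity]
    have g6 : (800 * P ^ 2 * C * θ) ^ 2 ≤ ε / 2 * m ^ 2 := by
      have := pow_le_pow_left₀ (by positivity) g5 2
      refine le_of_mul_le_mul_right ?_ (pow_pos ε0 2)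
      have : 2 ^ 53 * (D * θ * Real.log Z) ^ 2 * m ^ 2 ≤ ε ^ 3 * m ^ 2 := by gcongr
      nlinarith
    have g7 : (#B' : ℝ) * m ^ 2 ≤ ε * Z / 2 * m ^ 2 :=
      calc _ ≤ K * #(B'.image (ell M)) * m ^ 2 := by gcongr
        _ = K * (#(B'.image (ell M)) * m ^ 2) := by ring
        _ ≤ K * ((800 * P ^ 2 * C * θ) ^ 2 * #G) := by gcongr
        _ = (800 * P ^ 2 * C * θ) ^ 2 * (#G * K) := by ring
        _ ≤ ε / 2 * m ^ 2 * Z := by gcongr
        _ = _ := by ring
    linarith [le_of_mul_le_mul_right g7 (pow_pos m0 2)]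
  · have a1 := mem_Ioc.1 (mem_filter.1 hp).1
    have a2 := mem_Ioc.1 (mem_filter.1 hp').1
    have a3 : Z / (2 * K) ≤ Z / K := Nat.div_le_div_left (by omega) (by omega)
    have h' : ell M (p + b) = ell M (p' + b) := by simpa using h
    rcases lt_trichotomy p p' with c | c | c
    · have := ell_gap (by omega) (by omega) h'
      have := Nat.le_mul_of_pos_right M (by omega : 0 < p' + b - (p + b))
      omega
    · exact c
    · have := ell_gap (by omega) (by omega) h'.symm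
      have := Nat.le_mul_of_pos_right M (by omega : 0 < p + b - (p' + b))
      omega
  · intro x hx j hj p hp f hf h
    obtain ⟨z, hz, rfl⟩ := mem_image.1 hx
    obtain ⟨hz1, hz2⟩ := mem_filter.1 (mem_filter.1 hz).1
    have a1 := mem_Ioc.1 (mem_filter.1 hp).1
    have a2 : mu P j % 8 = 1 ∧ P ≤ mu P j ∧ mu P j ≤ 256 * P := by
      have := mem_range.1 hj
      unfold mu
      omega
    exact hz2 ⟨mu P j, p, a2.1, a2.2.1, a2.2.2, (mem_filter.1 hp).2, hit (by omega) (by omega)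
      (by omega) (mem_Ioc.1 hz1).1 (mem_Ioc.1 hz1).2 m1 hf h⟩
  · intro x hx
    obtain ⟨z, hz, rfl⟩ := mem_image.1 hx
    have hz1 := mem_Ioc.1 (mem_filter.1 (mem_filter.1 hz).1).1
    have hz2 := (mem_filter.1 hz).2
    have z1 : 4 * P ^ 9 ≤ z := by
      have a1 : (P : ℝ) ^ 10 ≤ Z := by exact_mod_cast hZ
      have : 4 * (P : ℝ) ^ 9 ≤ z :=
        calc _ = 8 * (P : ℝ) ^ 9 / 2 := by ring
          _ ≤ ε * P * P ^ 9 / 2 := by gcongr
          _ = ε * P ^ 10 / 2 := by ring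
          _ ≤ ε * Z / 2 := by gcongr
          _ ≤ _ := hz2.le
      exact_mod_cast this
    set x := z / (2 * K) with hx
    have x1 : P ≤ x := by
      refine (Nat.le_div_iff_mul_le (by omega)).2 (le_trans ?_ z1)
      have : P ^ 3 ≤ P ^ 9 := Nat.pow_le_pow_right (by omega) (by omega)
      nlinarith
    have x2 : x * (2 * K) ≤ z := Nat.div_mul_le_self _ _
    have x3 : z < (x + 1) * (2 * K) := by
      rw [add_mul, one_mul]; exact Nat.lt_div_mul_add (by omega)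
    have c1 := count_lower (range (255 * P / 8)) G (fun j => ell M (mu P j ^ e))
      (fun p => ell M (p + b) + 2) P (M / y ^ 3) (ell M z) (y / 16)
      {p ∈ Ioc 0 x | x < 64 * p ∧ pr p} (fun p hp => ?_) fun p hp => ?_
    · refine le_trans ?_ (Nat.cast_le.2 c1)
      push_cast
      gcongr
      refine le_trans ?_ (hpr x x1)
      have a1 : 1 < x := by omega
      have a2 : (1 : ℝ) < x := by exact_mod_cast a1
      have a3 := Real.log_pos a2
      have a4 : (x : ℝ) ≤ Z := by exact_mod_cast (Nat.div_le_self _ _).trans hz1.2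
      have a5 : (z : ℝ) ≤ x * (4 * K) := by exact_mod_cast (by nlinarith : z ≤ x * (4 * K))
      gcongr
      rw [div_le_iff₀ (by positivity)]
      linarith
    · obtain ⟨a1, a2⟩ := mem_filter.1 hp
      rw [mem_Ioc] at a1
      exact mem_filter.2 ⟨mem_Ioc.2 ⟨a1.1, a1.2.trans (Nat.div_le_div_right hz1.2)⟩, a2.2⟩
    · obtain ⟨a1, a2⟩ := mem_filter.1 hp
      rw [mem_Ioc] at a1
      refine window he y1 hP m3 (by omega) ?_ ?_
      · have : 19 * (p + b) ≤ 20 * x := by omega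
        rw [← hK]
        nlinarith
      · have : x + 1 ≤ 64 * (p + b) := by omega
        rw [← hK]
        nlinarith

lemma ev_log2 (c : ℕ) : ∀ᶠ L : ℕ in atTop, c * (Nat.log 2 L + 1) ^ 4 ≤ L := by
  have := (tendsto_pow_const_div_const_pow_of_one_lt 4 (one_lt_two (α := ℝ))).eventually_le_const
    (by positivity : (0 : ℝ) < 1 / (16 * c + 1))
  obtain ⟨n, hn⟩ := eventually_atTop.1 this
  filter_upwards [eventually_ge_atTop (2 ^ (n + 1))] with L hL
  have h1 : n + 1 ≤ Nat.log 2 L := Nat.le_log_of_pow_le one_lt_two hL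
  have h2 := Nat.pow_log_le_self 2 (lt_of_lt_of_le (by positivity) hL).ne'
  have h3 := hn (Nat.log 2 L) (by omega)
  generalize Nat.log 2 L = g at *
  rw [div_le_div_iff₀ (by positivity) (by positivity), one_mul] at h3
  have h4 : g ^ 4 * (16 * c + 1) ≤ 2 ^ g := by exact_mod_cast h3
  have h5 : (g + 1) ^ 4 ≤ (2 * g) ^ 4 := Nat.pow_le_pow_left (by omega) 4
  have h6 := Nat.mul_le_mul_left c h5
  rw [mul_pow] at h6
  nlinarith

open Classical in
/-- **Short intervals.** -/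
theorem short_int (e : ℕ) (he : e = 1 ∨ e = 2) (b : ℕ) (hb : b ≤ 1) (q c : ℕ) (hq : 0 < q)
    (hc : c.Coprime q) (ε : ℝ) (ε0 : 0 < ε) : ∀ᶠ P : ℕ in atTop, ∀ R Z : ℕ,
      2 ^ (20 * R) ≤ Nat.log 2 P → P ^ 10 ≤ Z → Z ≤ P ^ R →
      (#{z ∈ Ioc 0 Z | ¬∃ u p : ℕ, u % 8 = 1 ∧ P ≤ u ∧ u ≤ 256 * P ∧ p.Prime ∧ p ≡ c [MOD q] ∧
        u ^ e * (p + b) < z ∧ z ≤ u ^ e * (p + b) + P ^ (e + 2)} : ℝ) ≤ ε * Z := by
  have tl : Tendsto (Nat.log 2) atTop atTop := tendsto_atTop.2 fun n =>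
    (eventually_ge_atTop (2 ^ n)).mono fun _ h => Nat.le_log_of_pow_le one_lt_two h
  have tc := tendsto_natCast_atTop_atTop (R := ℝ)
  obtain ⟨x₀, hx₀⟩ := eventually_atTop.1 (H68.primes_ap.and
    ((Real.tendsto_log_atTop.comp tc).eventually_ge_atTop (q : ℝ)))
  filter_upwards [eventually_ge_atTop x₀, tc.eventually_ge_atTop (8 / ε),
    tl.eventually (ev_log2 (2 ^ 28)), tl.eventually_ge_atTop 1000,
    (tc.comp tl).eventually_ge_atTop (2 ^ 53 * (40 * q) ^ 2 / ε ^ 3)]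
    with P p1 p2 p3 p4 p5 R Z hR hZ hZ'
  have P0 : P ≠ 0 := by rintro rfl; simp at p4
  have l1 := Nat.pow_log_le_self 2 P0
  have l2 := Nat.lt_pow_succ_log_self one_lt_two P
  simp only [Function.comp] at p5
  generalize Nat.log 2 P = L at *
  have l3 := Nat.lt_pow_succ_log_self one_lt_two L
  generalize Nat.log 2 L = g at *
  have P2 : 2 ≤ P := le_trans (Nat.le_self_pow (by omega) 2) l1
  have R1 : 1 ≤ R := by
    rcases R with _ | R
    · have := Nat.one_lt_pow (n := 10) (by norm_num) P2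
      rw [pow_zero] at hZ'
      omega
    · omega
  have R2 : R < 2 ^ R := Nat.lt_two_pow_self
  set y := (P / 5).sqrt.sqrt with hy
  have y1 : 5 * y ^ 4 ≤ P := by
    have a1 := Nat.sqrt_le' (P / 5).sqrt
    have a2 := Nat.sqrt_le' (P / 5)
    have := Nat.pow_le_pow_left a1 2
    rw [← pow_mul, ← hy, show 2 * 2 = 4 from rfl] at this
    omega
  have y2 : 2 ^ ((L - 3) / 4) ≤ y := by
    rw [hy, Nat.le_sqrt', Nat.le_sqrt', Nat.le_div_iff_mul_le (by norm_num), ← pow_mul, ← pow_mul]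
    refine le_trans ?_ l1
    calc _ ≤ 2 ^ (L - 3) * 2 ^ 3 :=
          Nat.mul_le_mul (Nat.pow_le_pow_right two_pos (by omega)) (by norm_num)
      _ = _ := by rw [← pow_add]; congr 1; omega
  have y3 : 64 ≤ y := le_trans (Nat.pow_le_pow_right two_pos (by omega) : 2 ^ 6 ≤ _) y2
  have y4 : P ≤ 64 * y ^ 4 := by
    have a1 := Nat.succ_le_of_lt (Nat.lt_succ_sqrt' (P / 5).sqrt)
    have a2 := Nat.lt_succ_sqrt' (P / 5)
    have a3 := Nat.pow_le_pow_left a1 2
    have a4 : (2 * (y + 1)) ^ 4 ≤ (3 * y) ^ 4 := Nat.pow_le_pow_left (by omega) 4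
    rw [← pow_mul, show 2 * 2 = 4 from rfl] at a3
    simp only [Nat.succ_eq_add_one, ← hy, mul_pow] at *
    omega
  have E1 : 128 * (g + 1) * 2 ^ (15 * R) ≤ L := by
    refine (Nat.pow_le_pow_iff_left (by norm_num : 4 ≠ 0)).1 ?_
    calc _ = 2 ^ 28 * (g + 1) ^ 4 * (2 ^ (20 * R)) ^ 3 := by
          rw [mul_pow, mul_pow, ← pow_mul, ← pow_mul 2 (20 * R)]
          congr 2
          omega
      _ ≤ L * L ^ 3 := by gcongr
      _ = _ := by ring
  have E2 : 10 * R + 1 ≤ 2 ^ (5 * R) := by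
    rw [mul_comm 5 R, pow_mul]
    have : 2 ^ 4 ≤ (2 ^ R) ^ 4 := Nat.pow_le_pow_left (by omega) 4
    nlinarith
  have E3 : 5 * R ≤ 2 ^ (15 * R) := by
    have : 15 * R < 2 ^ (15 * R) := Nat.lt_two_pow_self
    omega
  have E4 : 11 + 2 * (g + 1) * 2 ^ (15 * R) ≤ (L - 3) / 4 ∧ 2 * (5 * R) + 4 ≤ (L - 3) / 4 := by
    have a1 := Nat.mul_le_mul (Nat.succ_pos g) E3
    rw [mul_assoc] at E1
    rw [mul_assoc]
    simp only [Nat.succ_eq_add_one] at a1
    omega
  have := core he hb (fun p => p.Prime ∧ p ≡ c [MOD q]) (P := P) (y := y) (S := 5 * R)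
    (E := 2 ^ (15 * R)) (Z := Z) (θ := 1 / 2 ^ (2 * (g + 1))) (ε := ε) (D := 20 * q)
    (by positivity) (fun x hx => by
      have := hx₀ x (p1.trans hx)
      convert this.1 q c hq this.2 hc) ((Nat.pow_le_pow_right two_pos E4.2).trans y2)
    (by positivity) (by rw [div_le_one (by positivity)]; exact one_le_pow₀ one_le_two)
    (by rw [show 15 * R = 5 * R + 2 * (5 * R) by ring, pow_add]; gcongr; omega) ?_ y1 y4 hZ
    (hZ'.trans (by rw [pow_mul]; gcongr; nlinarith)) ε0 (by rwa [div_le_iff₀' ε0] at p2) ?_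
  · simpa only [and_assoc] using this
  · rw [one_div, inv_pow, ← pow_mul, inv_mul_eq_div, le_div_iff₀ (by positivity), ← pow_add]
    exact_mod_cast (Nat.pow_le_pow_right two_pos E4.1).trans y2
  · have L0 : (1000 : ℝ) ≤ L := by exact_mod_cast p4
    have Z0 : (1 : ℝ) ≤ Z := by exact_mod_cast (Nat.one_le_pow _ _ (by omega)).trans hZ
    have a1 : Real.log Z ≤ R * (2 * L) := by
      have : (Z : ℝ) ≤ 2 ^ (R * (L + 1)) := by
        rw [mul_comm R, pow_mul]
        exact_mod_cast hZ'.trans (Nat.pow_le_pow_left l2.le R)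
      refine (Real.log_le_log (by linarith) this).trans ?_
      rw [Real.log_pow]
      push_cast
      rw [mul_assoc]
      refine mul_le_mul_of_nonneg_left ?_ (Nat.cast_nonneg R)
      nlinarith [Real.log_two_lt_d9]
    have a2 : (1 / 2 ^ (2 * (g + 1)) : ℝ) ≤ 1 / L ^ 2 := by
      rw [mul_comm, pow_mul]
      gcongr
      exact_mod_cast l3.le
    have a3 : (R : ℝ) ^ 2 ≤ L := by
      have : R ^ 2 ≤ L := (Nat.pow_le_pow_left R2.le 2).trans (le_trans (by
        rw [← pow_mul]; exact Nat.pow_le_pow_right two_pos (by omega)) hR)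
      exact_mod_cast this
    have a4 := Real.log_nonneg Z0
    rw [div_le_iff₀ (by positivity)] at p5
    calc _ ≤ 2 ^ 53 * (20 * q * (1 / L ^ 2) * (R * (2 * L)) : ℝ) ^ 2 := by gcongr
      _ = 2 ^ 53 * (40 * q) ^ 2 * R ^ 2 / L ^ 2 := by field_simp; ring
      _ ≤ L * ε ^ 3 * L / L ^ 2 := by gcongr
      _ = _ := by field_simp

end Pool.Agent.MP_d8b1b3_co.H42d
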